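import Pool.Agent.H11.S2

set_option autoImplicit false

namespace Pool.Agent.Results.MP_292d26_lc.Sigma2
open Pool.Agent.H11.PT

/-- `R` lists the pairs of a strict partial order on the ground set `V` -/
def IsPoset (V : List ℕ) (R : List (ℕ × ℕ)) : Prop :=
  (∀ p ∈ R, p.1 ∈ V ∧ p.2 ∈ V) ∧ (∀ a, (a, a) ∉ R) ∧
    ∀ a b c, (a, b) ∈ R → (b, c) ∈ R → (a, c) ∈ R

/-- `c` lists a chain `c₁ < c₂ < … < cₘ` of the poset -/
def IsCh (P : List ℕ × List (ℕ × ℕ)) (c : List ℕ) : Prop :=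
  (∀ a ∈ c, a ∈ P.1) ∧ c.IsChain fun a b => (a, b) ∈ P.2

/-- CHAIN MINOR: both inputs are posets `P`, `Q` and some `f : V_Q → V_P` is a witness -/
def ChainMinor (y : (List ℕ × List (ℕ × ℕ)) × (List ℕ × List (ℕ × ℕ))) : Prop :=
  IsPoset y.1.1 y.1.2 ∧ IsPoset y.2.1 y.2.2 ∧
    ∃ f : ℕ → ℕ, (∀ v ∈ y.2.1, f v ∈ y.1.1) ∧
      ∀ c, IsCh y.1 c → ∃ c', IsCh y.2 c' ∧ c'.map f = c

abbrev Po := List ℕ × List (ℕ × ℕ)

def poB (P : Po) : Bool :=
  P.2.all fun p => P.1.contains p.1 && P.1.contains p.2 && !(p.1 == p.2) &&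
    P.2.all fun q => !(p.2 == q.1) || P.2.contains (p.1, q.2)

theorem poB_iff (P : Po) : poB P = true ↔ IsPoset P.1 P.2 := by
  simp only [poB, IsPoset, List.all_eq_true, Bool.and_eq_true, List.contains_iff_mem,
    Bool.not_eq_true', beq_eq_false_iff_ne, Bool.or_eq_true]
  constructor
  · intro h
    exact ⟨fun p hp => (h p hp).1.1, fun a ha => (h _ ha).1.2 rfl,
      fun a b c h1 h2 => ((h _ h1).2 _ h2).resolve_left (fun h => h rfl)⟩
  · rintro ⟨h1, h2, h3⟩ ⟨a, b⟩ hp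
    refine ⟨⟨h1 _ hp, ?_⟩, ?_⟩
    · rintro (rfl : a = b); exact h2 _ hp
    · rintro ⟨b', c⟩ hq
      by_cases e : b = b'
      · subst e; exact Or.inr (h3 _ _ _ hp hq)
      · exact Or.inl e

def chB (P : Po) (d : List ℕ) : Bool :=
  d.all P.1.contains && (d.zip d.tail).all P.2.contains

theorem chB_iff (P : Po) (d : List ℕ) : chB P d = true ↔ IsCh P d := by
  simp only [chB, IsCh, List.all_eq_true, Bool.and_eq_true, List.contains_iff_mem]
  refine and_congr Iff.rfl ?_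
  induction d using List.twoStepInduction with
  | nil => simp
  | singleton a => simp
  | cons_cons a b l _ ih =>
    have := ih b
    simp only [List.tail_cons] at this
    simp only [List.tail_cons, List.zip_cons_cons, List.forall_mem_cons, List.isChain_cons_cons, this]

def stp (Q : Po) (F : List ℕ) (S : List ℕ) (a : ℕ) : List ℕ :=
  Q.1.filter fun w => F.getD w 0 == a && S.any fun v => Q.2.contains (v, w)

theorem fold_stp (Q : Po) (F : List ℕ) (l : List ℕ) : ∀ S : List ℕ, l.foldl (stp Q F) S ≠ [] ↔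
    ∃ v ∈ S, ∃ c : List ℕ, (∀ a ∈ c, a ∈ Q.1) ∧ (v :: c).IsChain (fun a b => (a, b) ∈ Q.2) ∧
      c.map (fun w => F.getD w 0) = l := by
  induction l with
  | nil => intro S; simp [List.exists_mem_of_ne_nil, ← List.length_pos_iff, List.length_pos_iff_exists_mem]
  | cons a l ih =>
    intro S
    rw [List.foldl_cons, ih]
    simp only [stp, List.mem_filter, Bool.and_eq_true, beq_iff_eq, List.any_eq_true,
      List.contains_iff_mem]
    constructor
    · rintro ⟨w, ⟨h1, h2, v, h3, h4⟩, c, h5, h6, h7⟩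
      exact ⟨v, h3, w :: c, by simpa [h1] using h5, by simp [h4, h6], by simp only [List.map_cons, h2, h7]⟩
    · rintro ⟨v, h3, _ | ⟨w, c⟩, h5, h6, h7⟩
      · simp at h7
      · simp only [List.map_cons, List.cons.injEq, List.isChain_cons_cons, List.forall_mem_cons]
          at h5 h6 h7
        exact ⟨w, ⟨h5.1, h7.1, v, h3, h6.1⟩, c, h5.2, h6.2, h7.2⟩

def covB (Q : Po) (F d : List ℕ) : Bool :=
  d.isEmpty || !(d.tail.foldl (stp Q F) (Q.1.filter fun w => F.getD w 0 == d.headD 0)).isEmpty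

theorem covB_iff (Q : Po) (F d : List ℕ) :
    covB Q F d = true ↔ ∃ c, IsCh Q c ∧ c.map (fun w => F.getD w 0) = d := by
  cases d with
  | nil => simp [covB, IsCh]
  | cons a l =>
    simp only [covB, List.isEmpty_cons, Bool.false_or, Bool.not_eq_true', List.isEmpty_eq_false_iff,
      List.tail_cons, fold_stp, List.headD_cons, List.mem_filter, beq_iff_eq, IsCh]
    constructor
    · rintro ⟨v, ⟨h1, h2⟩, c, h3, h4, h5⟩
      exact ⟨v :: c, ⟨by simpa [h1] using h3, h4⟩, by simp only [List.map_cons, h2, h5]⟩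
    · rintro ⟨_ | ⟨v, c⟩, ⟨h1, h2⟩, h3⟩
      · simp at h3
      · simp only [List.map_cons, List.cons.injEq, List.forall_mem_cons] at h1 h3
        exact ⟨v, ⟨h1.1, h3.1⟩, c, h1.2, h2, h3.2⟩

def chk (y : Po × Po) (F d : List ℕ) : Bool :=
  poB y.1 && poB y.2 && y.2.1.all (fun v => y.1.1.contains (F.getD v 0)) &&
    (!chB y.1 d || covB y.2 F d)

theorem chk_pt : PT fun p : (Po × Po) × List ℕ × List ℕ => chk p.1 p.2.1 p.2.2 := by
  have : PT fun p : (Po × Po) × List ℕ × List ℕ => p.2.2.tail.foldl (stp p.1.2 p.2.1)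
      (p.1.2.1.filter fun w => p.2.1.getD w 0 == p.2.2.headD 0) :=
    PT.foldl_inv (g := fun (p : (Po × Po) × List ℕ × List ℕ) S a => stp p.1.2 p.2.1 S a)
      (by fun_prop) (by fun_prop) (by unfold stp; fun_prop)
      (fun p S => S.Sublist p.1.2.1) (fun p => p.1.2.1) (by fun_prop) (fun _ => List.filter_sublist)
      (fun _ _ _ _ _ => List.filter_sublist) fun _ _ h => sz_sublist h
  unfold chk poB chB covB
  fun_prop

theorem mem : InSigma2 ChainMinor := by
  refine PT.inSigma2_nats chk_pt (fun y => sz y + sz y * sz y) (by fun_prop) (fun y F h => ?_)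
    fun y ⟨h1, h2, f, h3, h4⟩ => ?_
  · have h0 := h [] (by simp)
    simp only [chk, Bool.and_eq_true, poB_iff, List.all_eq_true, List.contains_iff_mem] at h0
    refine ⟨h0.1.1.1, h0.1.1.2, fun w => F.getD w 0, h0.1.2, fun c hc => ?_⟩
    obtain ⟨-, a2, a3⟩ := h0.1.1.1
    have : Trans (fun a b => (a, b) ∈ y.1.2) (fun a b => (a, b) ∈ y.1.2)
      (fun a b => (a, b) ∈ y.1.2) := ⟨fun h h' => a3 _ _ _ h h'⟩
    have nd : c.Nodup := hc.2.pairwise.imp fun {a b} h (e : a = b) => a2 a (by rwa [← e] at h)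
    obtain ⟨l, l1, l2⟩ := List.subperm_of_subset nd hc.1
    have h5 := h c (by
      have := (len_sum_le _).trans (sz_sublist l2)
      have e : sz y = sz ((y.1.1, y.1.2), y.2) := rfl
      rw [← l1.length_eq, ← l1.sum_eq]
      simp only [sz_pair] at e
      omega)
    simp only [chk, Bool.and_eq_true, Bool.or_eq_true, Bool.not_eq_true', covB_iff] at h5
    exact h5.2.resolve_left (by rw [(chB_iff _ _).2 hc]; simp)
  · have e : sz y = sz ((y.1.1, y.1.2), (y.2.1, y.2.2)) := rfl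
    simp only [sz_pair] at e
    have h5 : ∀ v ∈ y.2.1, ((List.range (sz y)).map fun v => if v ∈ y.2.1 then f v else 0).getD v 0
        = f v := by
      intro v hv
      have := sz_mem hv
      simp only [sz_nat] at this
      simp [List.getD_eq_getElem?_getD, show v < sz y by omega, hv]
    refine ⟨(List.range (sz y)).map fun v => if v ∈ y.2.1 then f v else 0, ?_, fun d => ?_⟩
    · have := List.sum_le_card_nsmul ((List.range (sz y)).map fun v =>
          if v ∈ y.2.1 then f v else 0) (sz y) (by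
        intro x hx
        obtain ⟨v, -, rfl⟩ := List.mem_map.1 hx
        split_ifs with hv
        · have := sz_mem (h3 v hv)
          simp only [sz_nat] at this
          omega
        · omega)
      simp only [List.length_map, List.length_range, smul_eq_mul] at this ⊢
      omega
    · simp only [chk, Bool.and_eq_true, poB_iff, List.all_eq_true, List.contains_iff_mem,
        Bool.or_eq_true, Bool.not_eq_true', covB_iff]
      refine ⟨⟨⟨h1, h2⟩, fun v hv => by rw [h5 v hv]; exact h3 v hv⟩, ?_⟩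
      cases hd : chB y.1 d
      · exact Or.inl rfl
      · obtain ⟨c, a1, a2⟩ := h4 d ((chB_iff _ _).1 hd)
        exact Or.inr ⟨c, a1, a2 ▸ List.map_congr_left fun v hv => h5 v (a1.1 v hv)⟩

abbrev V := ℕ × ℕ × ℕ × ℕ × ℕ
def cd (v : V) : ℕ := Nat.pair v.1 (Nat.pair v.2.1 (Nat.pair v.2.2.1 (Nat.pair v.2.2.2.1 v.2.2.2.2)))
theorem cd_inj : Function.Injective cd := by
  rintro ⟨a, b, c, d, e⟩ ⟨a', b', c', d', e'⟩ h
  simpa [cd] using h
def mk (A : List V) (lt : V → V → Bool) : Po :=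
  (A.map cd, ((A ×ˢ A).filter fun p => lt p.1 p.2).map fun p => (cd p.1, cd p.2))

theorem mem_mk (A : List V) (lt : V → V → Bool) (a b : ℕ) : (a, b) ∈ (mk A lt).2 ↔
    ∃ v ∈ A, ∃ w ∈ A, lt v w = true ∧ cd v = a ∧ cd w = b := by
  simp only [mk, List.mem_map, List.mem_filter, Prod.mk.injEq]
  constructor
  · rintro ⟨⟨v, w⟩, ⟨h1, h3⟩, h4⟩
    exact ⟨v, (List.pair_mem_product.1 h1).1, w, (List.pair_mem_product.1 h1).2, h3, h4⟩
  · rintro ⟨v, h1, w, h2, h3, h4⟩; exact ⟨(v, w), ⟨List.pair_mem_product.2 ⟨h1, h2⟩, h3⟩, h4⟩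

theorem po_mk (A : List V) (lt : V → V → Bool) (h1 : ∀ v, lt v v = false)
    (h2 : ∀ u v w, lt u v = true → lt v w = true → lt u w = true) :
    IsPoset (mk A lt).1 (mk A lt).2 := by
  refine ⟨fun ⟨a, b⟩ hp => ?_, fun a ha => ?_, fun a b c ha hb => ?_⟩
  · obtain ⟨v, hv, w, hw, -, rfl, rfl⟩ := (mem_mk _ _ _ _).1 hp
    exact ⟨List.mem_map_of_mem hv, List.mem_map_of_mem hw⟩
  · obtain ⟨v, hv, w, hw, h, rfl, e⟩ := (mem_mk _ _ _ _).1 ha
    rw [cd_inj e, h1] at h; simp at h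
  · obtain ⟨v, hv, w, hw, h, rfl, rfl⟩ := (mem_mk _ _ _ _).1 ha
    obtain ⟨v', hv', w', hw', h', e, rfl⟩ := (mem_mk _ _ _ _).1 hb
    rw [cd_inj e] at h'
    exact (mem_mk _ _ _ _).2 ⟨v, hv, w', hw', h2 _ _ _ h h', rfl, rfl⟩

def ACh (A : List V) (lt : V → V → Bool) (c : List V) : Prop :=
  (∀ a ∈ c, a ∈ A) ∧ c.IsChain fun a b => lt a b = true

theorem ch_mk (A : List V) (lt : V → V → Bool) (c : List ℕ) :
    IsCh (mk A lt) c ↔ ∃ c', ACh A lt c' ∧ c'.map cd = c := by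
  have key : ∀ c' : List V, (∀ a ∈ c', a ∈ A) → ((c'.map cd).IsChain (fun a b => (a, b) ∈ (mk A lt).2)
      ↔ c'.IsChain fun a b => lt a b = true) := by
    intro c' h
    rw [List.isChain_map]
    simp only [List.isChain_iff_getElem, mem_mk]
    refine forall₂_congr fun i hi => ⟨?_, fun h1 =>
      ⟨_, h _ (List.getElem_mem _), _, h _ (List.getElem_mem _), h1, rfl, rfl⟩⟩
    rintro ⟨v, -, w, -, h1, e1, e2⟩
    rwa [← cd_inj e1, ← cd_inj e2]
  constructor
  · rintro ⟨h1, h2⟩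
    obtain ⟨c', rfl, h3⟩ : ∃ c' : List V, c'.map cd = c ∧ ∀ a ∈ c', a ∈ A := by
      clear h2
      induction c with
      | nil => exact ⟨[], rfl, by simp⟩
      | cons a c ih =>
        obtain ⟨c', e, h3⟩ := ih fun x hx => h1 x (List.mem_cons_of_mem _ hx)
        obtain ⟨v, hv, e'⟩ := List.mem_map.1 (h1 a List.mem_cons_self)
        exact ⟨v :: c', by simp [e, e'], by simpa [hv] using h3⟩
    exact ⟨c', ⟨h3, (key c' h3).1 h2⟩, rfl⟩
  · rintro ⟨c', ⟨h1, h2⟩, rfl⟩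
    refine ⟨fun a ha => ?_, (key c' h1).2 h2⟩
    obtain ⟨v, hv, rfl⟩ := List.mem_map.1 ha
    exact List.mem_map_of_mem (h1 v hv)

theorem transfer (A B : List V) (la lb : V → V → Bool) :
    (∃ f : ℕ → ℕ, (∀ v ∈ (mk B lb).1, f v ∈ (mk A la).1) ∧
      ∀ c, IsCh (mk A la) c → ∃ c', IsCh (mk B lb) c' ∧ c'.map f = c) ↔
    ∃ f : V → V, (∀ v ∈ B, f v ∈ A) ∧ ∀ c, ACh A la c → ∃ c', ACh B lb c' ∧ c'.map f = c := by
  have hl := Function.leftInverse_invFun cd_inj
  simp only [ch_mk]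
  constructor
  · rintro ⟨f, h1, h2⟩
    refine ⟨fun v => Function.invFun cd (f (cd v)), fun v hv => ?_, fun c hc => ?_⟩
    · obtain ⟨w, hw, e⟩ := List.mem_map.1 (h1 _ (List.mem_map_of_mem hv))
      simp only [← e, hl _]; exact hw
    · obtain ⟨_, ⟨c', h3, rfl⟩, h4⟩ := h2 _ ⟨c, hc, rfl⟩
      refine ⟨c', h3, ?_⟩
      have := congrArg (List.map (Function.invFun cd)) h4
      simpa [List.map_map, Function.comp_def, hl _] using this
  · rintro ⟨f, h1, h2⟩
    refine ⟨fun n => cd (f (Function.invFun cd n)), fun n hn => ?_, ?_⟩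
    · obtain ⟨w, hw, rfl⟩ := List.mem_map.1 hn
      simp only [hl _]; exact List.mem_map_of_mem (h1 w hw)
    · rintro _ ⟨c, hc, rfl⟩
      obtain ⟨c', h3, rfl⟩ := h2 c hc
      exact ⟨_, ⟨c', h3, rfl⟩, by simp [List.map_map, Function.comp_def, hl _]⟩

abbrev I := List ℕ × List (List Lit)
def nv (y : I) : ℕ := y.1.sum + (y.2.flatten.map fun l => l.1).sum + 1
def mm (y : I) : ℕ := y.2.length
def al (y : I) (t j s : ℕ) : Bool :=
  !(y.2.getD t []).contains (j - 1, s == 1) && !(t == mm y + 1 + j && s == 1)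
abbrev En (y : I) (t i s : ℕ) : Prop :=
  (t ≤ mm y ∧ 1 ≤ i ∧ i ≤ nv y ∧ s < 2) ∨ (t = mm y + 1 ∧ i = 1 ∧ s = 0)
abbrev PV (y : I) (v : V) : Prop :=
  (v.1 = 0 ∧ v.2.1 = 0 ∧ v.2.2.1 = 0 ∧ v.2.2.2.1 < 2 ∧ 1 ≤ v.2.2.2.2 ∧ v.2.2.2.2 ≤ nv y + 1) ∨
  (v.1 = 1 ∧ En y v.2.1 v.2.2.1 v.2.2.2.1 ∧ v.2.2.2.2 < v.2.2.1)
abbrev QV (y : I) (v : V) : Prop :=
  (v.1 = 0 ∧ v.2.1 = 0 ∧ v.2.2.1 = 0 ∧ v.2.2.2.1 < 2 ∧ v.2.2.2.2 = nv y + 1) ∨
  (v.1 = 1 ∧ En y v.2.1 v.2.2.1 v.2.2.2.1 ∧ v.2.2.2.2 < v.2.2.1) ∨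
  (v.1 = 2 ∧ v.2.2.1 = 0 ∧ v.2.2.2.1 < 2 ∧ 1 ≤ v.2.2.2.2 ∧ v.2.2.2.2 ≤ nv y ∧
    (v.2.1 < mm y + 2 ∨ v.2.1 - (mm y + 2) ∈ y.1))
abbrev PL (v w : V) : Prop := v.2.2.2.2 < w.2.2.2.2 ∧
  (¬ w.1 = 1 ∨ (v.1 = 1 ∧ v.2.1 = w.2.1 ∧ v.2.2.1 = w.2.2.1 ∧ v.2.2.2.1 = w.2.2.2.1)) ∧
  (¬ v.1 = 1 ∨ w.1 = 1 ∨ v.2.2.1 ≤ w.2.2.2.2)
abbrev Ed (y : I) (v w : V) : Prop :=
  (v.1 = 1 ∧ w.2.2.2.2 < v.2.2.1 ∧ w.1 = 1 ∧ w.2.1 = v.2.1 ∧ w.2.2.1 = v.2.2.1 ∧
    w.2.2.2.1 = v.2.2.2.1) ∨
  (v.1 = 1 ∧ v.2.2.1 ≤ w.2.2.2.2 ∧ w.1 = 2 ∧ v.2.1 = mm y + 1 ∧ ¬ w.2.1 = mm y + 1 ∧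
    al y w.2.1 w.2.2.2.2 w.2.2.2.1 = true) ∨
  (v.1 = 1 ∧ v.2.2.1 ≤ w.2.2.2.2 ∧ w.1 = 2 ∧ ¬ v.2.1 = mm y + 1 ∧
    ((w.2.1 = v.2.1 ∧ w.2.2.2.1 = v.2.2.2.1) ∨ (w.2.1 = mm y ∧ ¬ w.2.2.2.1 = v.2.2.2.1) ∨
      w.2.1 = mm y + 1)) ∨
  (v.1 = 2 ∧ w.1 = 2 ∧ ((w.2.1 = v.2.1 ∧ al y w.2.1 w.2.2.2.2 w.2.2.2.1 = true) ∨
    (w.2.1 = mm y ∧ v.2.1 ≤ mm y))) ∨
  (v.1 = 2 ∧ w.1 = 0 ∧ ((w.2.2.2.1 = 1 ∧ v.2.1 ≤ mm y) ∨ (w.2.2.2.1 = 0 ∧ ¬ v.2.1 = mm y)))
abbrev QL (y : I) (v w : V) : Prop :=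
  v.2.2.2.2 + 2 ≤ w.2.2.2.2 ∨ (v.2.2.2.2 + 1 = w.2.2.2.2 ∧ Ed y v w)
def rg (y : I) : List ℕ := List.range (mm y + nv y + 3)
def box (y : I) : List V := rg y ×ˢ rg y ×ˢ rg y ×ˢ rg y ×ˢ rg y
def AP (y : I) : List V := (box y).filter fun v => decide (PV y v)
def AQ (y : I) : List V := (box y).filter fun v => decide (QV y v)
def red (y : I) : Po × Po :=
  (mk (AP y) fun v w => decide (PL v w), mk (AQ y) fun v w => decide (QL y v w))

@[fun_prop] theorem nv_pt : PT nv := by unfold nv; fun_prop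
@[fun_prop] theorem mm_pt : PT mm := by unfold mm; fun_prop
@[fun_prop] theorem box_pt : PT box := by unfold box rg; fun_prop
@[fun_prop] theorem AP_pt : PT AP := by unfold AP PV En; fun_prop
@[fun_prop] theorem AQ_pt : PT AQ := by unfold AQ QV En; fun_prop
@[fun_prop] theorem al_pt {α : Type} [Enc α] {f : α → I} {a b c : α → ℕ} (hf : PT f) (ha : PT a)
    (hb : PT b) (hc : PT c) : PT fun x => al (f x) (a x) (b x) (c x) := by unfold al; fun_prop
theorem mk_pt {A : I → List V} {l : I → V → V → Bool} (hA : PT A)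
    (hl : PT fun p : I × V × V => l p.1 p.2.1 p.2.2) : PT fun y => mk (A y) (l y) := by
  unfold mk cd
  exact PT.pair (by fun_prop) (PT.map (PT.filter (by fun_prop) hl) (by fun_prop))
theorem red_pt : PT red :=
  PT.pair (mk_pt (l := fun _ v w => decide (PL v w)) AP_pt (by unfold PL; fun_prop))
    (mk_pt (l := fun y v w => decide (QL y v w)) AQ_pt (by unfold QL Ed; fun_prop))

variable (y : I)

theorem D_lt {v : ℕ} (h : v ∈ y.1) : v < nv y := by
  have := List.single_le_sum (by simp) _ h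
  unfold nv; omega
theorem lit_lt {c : List Lit} (h : c ∈ y.2) {l : Lit} (hl : l ∈ c) : l.1 < nv y := by
  have := List.single_le_sum (l := y.2.flatten.map fun l => l.1) (by simp) _
    (List.mem_map_of_mem (List.mem_flatten.2 ⟨c, h, hl⟩))
  unfold nv; omega
theorem nv_pos : 1 ≤ nv y := by unfold nv; omega

theorem mem_box (v : V) : v ∈ box y ↔ v.1 < mm y + nv y + 3 ∧ v.2.1 < mm y + nv y + 3 ∧
    v.2.2.1 < mm y + nv y + 3 ∧ v.2.2.2.1 < mm y + nv y + 3 ∧ v.2.2.2.2 < mm y + nv y + 3 := by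
  obtain ⟨a, b, c, d, e⟩ := v
  simp [box, rg]
theorem mem_AP (v : V) : v ∈ AP y ↔ PV y v := by
  rw [AP, List.mem_filter, mem_box, decide_eq_true_eq]
  refine ⟨fun h => h.2, fun h => ⟨?_, h⟩⟩
  unfold PV En at h; omega
theorem mem_AQ (v : V) : v ∈ AQ y ↔ QV y v := by
  rw [AQ, List.mem_filter, mem_box, decide_eq_true_eq]
  refine ⟨fun h => h.2, fun h => ⟨?_, h⟩⟩
  by_cases e : v.2.1 - (mm y + 2) ∈ y.1
  · have := D_lt y e
    unfold QV En at h; omega
  · simp only [QV, En, e, or_false] at h; omega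

theorem V_ext {v : V} {a b c d e : ℕ} (h : v.1 = a ∧ v.2.1 = b ∧ v.2.2.1 = c ∧ v.2.2.2.1 = d ∧
    v.2.2.2.2 = e) : v = (a, b, c, d, e) := by
  obtain ⟨_, _, _, _, _⟩ := v
  simpa using h

def Wit (f : V → V) : Prop :=
  ∀ c, ACh (AP y) (fun v w => decide (PL v w)) c →
    ∃ c', ACh (AQ y) (fun v w => decide (QL y v w)) c' ∧ c'.map f = c

theorem path {f : V → V} (H : Wit y f) {t i s : ℕ} (hp : En y t i s) (τ : ℕ → ℕ) (hτ : ∀ j, τ j < 2) :
    ∃ w : ℕ → V, (∀ j ≤ nv y + 1, QV y (w j) ∧ (w j).2.2.2.2 = j ∧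
      f (w j) = if j < i then (1, t, i, s, j) else (0, 0, 0, τ j, j)) ∧
      ∀ j ≤ nv y, Ed y (w j) (w (j + 1)) := by
  have := nv_pos y
  obtain ⟨L, ⟨h1, h2⟩, h3⟩ := H ((List.range (nv y + 2)).map fun j =>
      if j < i then (1, t, i, s, j) else (0, 0, 0, τ j, j)) ⟨by
    intro a ha
    obtain ⟨j, hj, rfl⟩ := List.mem_map.1 ha
    rw [mem_AP]
    have := hτ j
    have := List.mem_range.1 hj
    unfold En at hp
    split_ifs <;> dsimp only [PV, En] <;> omega, by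
    rw [List.isChain_map, List.isChain_range]
    intro j _
    rw [decide_eq_true_eq]
    split_ifs <;> dsimp only [PL] <;> omega⟩
  have hl : L.length = nv y + 2 := by simpa using congrArg List.length h3
  simp only [List.isChain_iff_getElem, decide_eq_true_eq] at h2
  have g : ∀ j (h : j < L.length), L.getD j (0, 0, 0, 0, 0) = L[j] := fun j h =>
    List.getD_eq_getElem _ _ h
  obtain ⟨w, hw⟩ : ∃ w : ℕ → V, ∀ j, w j = L.getD j (0, 0, 0, 0, 0) := ⟨_, fun _ => rfl⟩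
  have q : ∀ j ≤ nv y + 1, QV y (w j) := fun j hj => by
    rw [hw, g j (by omega), ← mem_AQ]; exact h1 _ (List.getElem_mem _)
  have l : ∀ j ≤ nv y, QL y (w j) (w (j + 1)) :=
    fun j hj => by rw [hw, hw, g j (by omega), g (j + 1) (by omega)]; exact h2 j (by omega)
  have ff : ∀ j ≤ nv y + 1, f (w j) =
      if j < i then (1, t, i, s, j) else (0, 0, 0, τ j, j) := fun j hj => by
    have := congrArg (fun L => L[j]?) h3
    rw [hw, g j (by omega)]
    simpa [show j < L.length by omega, show j < nv y + 2 by omega] using this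
  have l' : ∀ j ≤ nv y, (w j).2.2.2.2 < (w (j + 1)).2.2.2.2 := fun j hj => by
    rcases l j hj with h | h <;> omega
  have a1 : ∀ j ≤ nv y + 1, j ≤ (w j).2.2.2.2 := by
    intro j
    induction j with
    | zero => omega
    | succ j ih => intro hj; have := ih (by omega); have := l' j (by omega); omega
  have a2 : ∀ d ≤ nv y + 1, (w (nv y + 1 - d)).2.2.2.2 + d ≤ nv y + 1 := by
    intro d
    induction d with
    | zero => intro _; have := q (nv y + 1) le_rfl; unfold QV En at this; simp only [Nat.sub_zero]; omega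
    | succ d ih =>
      intro hd
      have := ih (by omega)
      have := l' (nv y - d) (by omega)
      rw [show nv y - d + 1 = nv y + 1 - d by omega] at this
      rw [show nv y + 1 - (d + 1) = nv y - d by omega]
      omega
  have a3 : ∀ j ≤ nv y + 1, (w j).2.2.2.2 = j := fun j hj => by
    have := a1 j hj
    have := a2 (nv y + 1 - j) (by omega)
    rw [show nv y + 1 - (nv y + 1 - j) = j by omega] at this
    omega
  refine ⟨w, fun j hj => ⟨q j hj, a3 j hj, ff j hj⟩, fun j hj => ?_⟩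
  have := a3 j (by omega)
  have := a3 (j + 1) (by omega)
  rcases l j hj with h | h
  · omega
  · exact h.2

section
variable {y} {w : ℕ → V} (q : ∀ j ≤ nv y + 1, QV y (w j) ∧ (w j).2.2.2.2 = j)
  (e : ∀ j ≤ nv y, Ed y (w j) (w (j + 1)))
include q e

theorem follow {t i s : ℕ} (hp : En y t i s) (h0 : w 0 = (1, t, i, s, 0)) :
    ∀ j < i, w j = (1, t, i, s, j) := by
  intro j
  induction j with
  | zero => intro _; exact h0
  | succ j ih =>
    intro hj
    have a := e j (by have := nv_pos y; unfold En at hp; omega)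
    have b := (q (j + 1) (by have := nv_pos y; unfold En at hp; omega)).2
    rw [ih (by omega)] at a
    dsimp only [Ed] at a
    exact V_ext (by omega)

theorem stay {T j : ℕ} (hT : T = mm y ∨ T = mm y + 1) (hj : j ≤ nv y)
    (h : (w j).1 = 2 ∧ (w j).2.1 = T) : (w (nv y + 1)).2.2.2.1 = mm y + 1 - T := by
  have : ∀ d, j + d ≤ nv y → (w (j + d)).1 = 2 ∧ (w (j + d)).2.1 = T := by
    intro d
    induction d with
    | zero => intro _; exact h
    | succ d ih =>
      intro hd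
      have a := ih (by omega)
      have b := e (j + d) (by omega)
      have c := q (j + d + 1) (by omega)
      unfold Ed at b; unfold QV En at c
      rw [← add_assoc]; omega
  have a := this (nv y - j) (by omega)
  rw [show j + (nv y - j) = nv y by omega] at a
  have b := e (nv y) le_rfl
  have c := q (nv y + 1) le_rfl
  unfold Ed at b; unfold QV En at c
  omega
end

theorem sound {f : V → V} (H : Wit y f) : ESAT y := by
  classical
  have n1 := nv_pos y
  let E0 : Finset (ℕ × ℕ × ℕ) := (Finset.range (mm y + 2) ×ˢ Finset.range (nv y + 1) ×ˢ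
    Finset.range 2).filter fun p => En y p.1 p.2.1 p.2.2
  have hE : ∀ p, p ∈ E0 ↔ En y p.1 p.2.1 p.2.2 := by
    intro p
    simp only [E0, Finset.mem_filter, Finset.mem_product, Finset.mem_range]
    exact ⟨fun h => h.2, fun h => ⟨by unfold En at h; omega, h⟩⟩
  let C0 : ℕ × ℕ × ℕ → V := fun p => (1, p.1, p.2.1, p.2.2, 0)
  have start : ∀ v, QV y v → v.2.2.2.2 = 0 → ∃ q : E0, v = C0 q := by
    intro v hv h
    unfold QV at hv
    exact ⟨⟨(v.2.1, v.2.2.1, v.2.2.2.1), (hE _).2 (by dsimp only [En] at hv ⊢; omega)⟩,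
      V_ext (by dsimp only [En] at hv ⊢; omega)⟩
  have a : ∀ p : E0, ∃ q : E0, f (C0 q) = C0 p := by
    intro p
    have hp := (hE _).1 p.2
    obtain ⟨w, h1, -⟩ := path y H hp (fun _ => 0) (by simp)
    obtain ⟨b1, b2, b3⟩ := h1 0 (by omega)
    obtain ⟨q, e⟩ := start _ b1 b2
    rw [if_pos (by unfold En at hp; omega)] at b3
    exact ⟨q, e ▸ b3⟩
  choose g hg using a
  have Cinj : ∀ p q : E0, C0 p = C0 q → p = q := by
    intro p q h
    simp only [C0, Prod.mk.injEq] at h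
    exact Subtype.ext (Prod.ext h.2.1 (Prod.ext h.2.2.1 h.2.2.2.1))
  have gb : Function.Bijective g := Finite.injective_iff_bijective.1 fun p p' h =>
    Cinj _ _ (by rw [← hg, h, hg])
  have pth : ∀ (p : E0) (τ : ℕ → ℕ), (∀ j, τ j < 2) → ∃ w : ℕ → V,
      (∀ j ≤ nv y + 1, QV y (w j) ∧ (w j).2.2.2.2 = j) ∧ (∀ j ≤ nv y, Ed y (w j) (w (j + 1))) ∧
      (∀ j ≤ nv y + 1, p.1.2.1 ≤ j → f (w j) = (0, 0, 0, τ j, j)) ∧
      ∀ j < (g p).1.2.1, w j = (1, (g p).1.1, (g p).1.2.1, (g p).1.2.2, j) := by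
    intro p τ hτ
    have hp := (hE _).1 p.2
    obtain ⟨w, h1, h2⟩ := path y H hp τ hτ
    have h3 : ∀ j ≤ nv y + 1, QV y (w j) ∧ (w j).2.2.2.2 = j := fun j hj => ⟨(h1 j hj).1, (h1 j hj).2.1⟩
    refine ⟨w, h3, h2, fun j hj h => by rw [(h1 j hj).2.2, if_neg (by omega)],
      follow h3 h2 ((hE _).1 (g p).2) ?_⟩
    obtain ⟨b1, b2, b3⟩ := h1 0 (by omega)
    obtain ⟨q, e⟩ := start _ b1 b2
    rw [if_pos (by unfold En at hp; omega)] at b3
    obtain ⟨p', rfl⟩ := gb.2 q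
    rw [e, hg] at b3
    rw [e, Cinj _ _ b3]
  have le : ∀ p : E0, (g p).1.2.1 ≤ p.1.2.1 := by
    intro p
    by_contra h
    have hp := (hE _).1 p.2
    obtain ⟨w, -, -, a1, a2⟩ := pth p (fun _ => 0) (by simp)
    obtain ⟨w', -, -, b1, b2⟩ := pth p (fun _ => 1) (by simp)
    have c1 := a1 _ (by unfold En at hp; omega) le_rfl
    have c2 := b1 _ (by unfold En at hp; omega) le_rfl
    rw [a2 _ (not_le.1 h)] at c1
    rw [b2 _ (not_le.1 h), c1] at c2
    simp at c2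
  have eq : ∀ p : E0, (g p).1.2.1 = p.1.2.1 := fun p =>
    (Finset.sum_eq_sum_iff_of_le (s := Finset.univ) fun p _ => le p).1
      (gb.sum_comp fun p : E0 => p.1.2.1) p (Finset.mem_univ _)
  have pth2 : ∀ t i s, En y t i s → ∀ (τ : ℕ → ℕ), (∀ j, τ j < 2) → ∃ w : ℕ → V,
      (∀ j ≤ nv y + 1, QV y (w j) ∧ (w j).2.2.2.2 = j) ∧ (∀ j ≤ nv y, Ed y (w j) (w (j + 1))) ∧
      (∀ j ≤ nv y + 1, i ≤ j → f (w j) = (0, 0, 0, τ j, j)) ∧ w (i - 1) = (1, t, i, s, i - 1) := by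
    intro t i s hq τ hτ
    obtain ⟨p, hp⟩ := gb.2 ⟨(t, i, s), (hE _).2 hq⟩
    obtain ⟨w, a1, a2, a3, a4⟩ := pth p τ hτ
    rw [← eq p] at a3
    rw [hp] at a3 a4
    exact ⟨w, a1, a2, a3, a4 _ (by dsimp only; unfold En at hq; omega)⟩
  have top : ∀ v, QV y v → v.2.2.2.2 = nv y + 1 → v = (0, 0, 0, v.2.2.2.1, nv y + 1) ∧
      v.2.2.2.1 < 2 := by
    intro v hv h
    unfold QV En at hv
    exact ⟨V_ext (by omega), by omega⟩
  have g0 : En y (mm y + 1) 1 0 := Or.inr ⟨rfl, rfl, rfl⟩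
  obtain ⟨r, hr⟩ : ∃ r : ℕ → ℕ, ∀ e < 2, r e < 2 ∧ ∀ e' < 2,
      f (0, 0, 0, e', nv y + 1) = (0, 0, 0, r e, nv y + 1) → e' = e := by
    obtain ⟨w, a1, -, a3, -⟩ := pth2 _ _ _ g0 (fun _ => 0) (by simp)
    obtain ⟨w', b1, -, b3, -⟩ := pth2 _ _ _ g0 (fun _ => 1) (by simp)
    have c1 := a3 _ le_rfl (by omega)
    have c2 := b3 _ le_rfl (by omega)
    obtain ⟨d1, d2⟩ := top _ (a1 _ le_rfl).1 (a1 _ le_rfl).2
    obtain ⟨d3, d4⟩ := top _ (b1 _ le_rfl).1 (b1 _ le_rfl).2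
    rw [d1] at c1
    rw [d3] at c2
    generalize (w (nv y + 1)).2.2.2.1 = u at *
    generalize (w' (nv y + 1)).2.2.2.1 = u' at *
    refine ⟨fun e => if e = u then 0 else 1, fun e he => ⟨by dsimp only; split_ifs <;> omega, fun e' he' h => ?_⟩⟩
    have n : u ≠ u' := by rintro rfl; rw [c1] at c2; simp at c2
    dsimp only at h
    split_ifs at h with h'
    · by_contra k
      rw [show e' = u' by omega, c2] at h; simp at h
    · by_contra k
      rw [show e' = u by omega, c1] at h; simp at h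
  have pth3 : ∀ t i s, En y t i s → ∀ (τ : ℕ → ℕ), (∀ j, τ j < 2) → ∀ e < 2, ∃ w : ℕ → V,
      (∀ j ≤ nv y + 1, QV y (w j) ∧ (w j).2.2.2.2 = j) ∧ (∀ j ≤ nv y, Ed y (w j) (w (j + 1))) ∧
      (∀ j ≤ nv y, i ≤ j → f (w j) = (0, 0, 0, τ j, j)) ∧ w (i - 1) = (1, t, i, s, i - 1) ∧
      (w (nv y + 1)).2.2.2.1 = e := by
    intro t i s hq τ hτ e he
    obtain ⟨w, a1, a2, a3, a4⟩ := pth2 t i s hq (fun j => if j ≤ nv y then τ j else r e) (by
      intro j; split_ifs; exact hτ j; exact (hr e he).1)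
    refine ⟨w, a1, a2, fun j hj h => by rw [a3 j (by omega) h, if_pos hj], a4, ?_⟩
    obtain ⟨d1, d2⟩ := top _ (a1 _ le_rfl).1 (a1 _ le_rfl).2
    have := a3 _ le_rfl (by unfold En at hq; omega)
    rw [d1, if_neg (by omega)] at this
    exact (hr e he).2 _ d2 this
  have force : ∀ t ≤ mm y, ∀ i, 1 ≤ i → i ≤ nv y → ∀ s < 2, ∀ b < 2,
      f (2, t, 0, s, i) = (0, 0, 0, b, i) ∨ f (2, mm y, 0, 1 - s, i) = (0, 0, 0, b, i) := by
    intro t ht i h1 h2 s hs b hb
    obtain ⟨w, a1, a2, a3, a4, a5⟩ := pth3 t i s (Or.inl ⟨ht, h1, h2, hs⟩) (fun _ => b)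
      (fun _ => hb) 1 (by omega)
    have c1 := a2 (i - 1) (by omega)
    rw [a4, show i - 1 + 1 = i by omega] at c1
    have c2 := a1 i (by omega)
    have c3 := fun h => stay a1 a2 (Or.inr rfl) h2 h
    rw [← a3 i h2 le_rfl]
    dsimp only [Ed] at c1
    unfold QV En at c2
    by_cases k : (w i).2.1 = t ∧ (w i).2.2.2.1 = s
    · left; congr 1; exact (V_ext (by omega)).symm
    · right; congr 1; exact (V_ext (by omega)).symm
  have ex : ∀ v, ∃ b : Bool, v < nv y →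
      f (2, mm y, 0, b.toNat, v + 1) ≠ f (2, mm y + 2 + v, 0, 0, v + 1) := by
    intro v
    by_contra h
    push Not at h
    have b0 := h false
    have b1 := h true
    have c0 := force _ le_rfl (v + 1) (by omega) (by omega) 0 (by omega) 0 (by omega)
    have c1 := force _ le_rfl (v + 1) (by omega) (by omega) 0 (by omega) 1 (by omega)
    simp only [Bool.toNat_false, Bool.toNat_true] at b0 b1
    rw [b0.2, b1.2, or_self] at c0 c1
    rw [c0] at c1; simp at c1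
  choose τ hτ using ex
  refine ⟨τ, fun σ hσ hs => ?_⟩
  let β : ℕ → ℕ := fun j => if f (2, mm y, 0, (σ (j - 1)).toNat, j) = (0, 0, 0, 1, j) then 1 else 0
  have hβ : ∀ j, 1 ≤ j → j ≤ nv y → f (2, mm y, 0, (σ (j - 1)).toNat, j) = (0, 0, 0, β j, j) := by
    intro j h1 h2
    have c0 := force _ le_rfl j h1 h2 0 (by omega) 0 (by omega)
    have c1 := force _ le_rfl j h1 h2 0 (by omega) 1 (by omega)
    simp only [β]
    split_ifs with k
    · exact k
    · revert k; cases σ (j - 1) <;> simp only [Bool.toNat_false, Bool.toNat_true] <;> grind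
  obtain ⟨w, a1, a2, a3, a4, a5⟩ := pth3 _ _ _ g0 β (by intro j; simp only [β]; split_ifs <;> omega)
    0 (by omega)
  have c1 : (w 1).1 = 2 ∧ (w 1).2.1 ≠ mm y + 1 ∧ al y (w 1).2.1 1 (w 1).2.2.2.1 = true := by
    have b : Ed y (w 0) (w 1) := a2 0 (by omega)
    have c := (a1 1 (by omega)).2
    rw [show w 0 = (1, mm y + 1, 1, 0, 0) from a4] at b
    dsimp only [Ed] at b
    rw [c] at b
    rcases b with k | k | k | k | k
    · omega
    · exact ⟨k.2.2.1, k.2.2.2.2⟩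
    all_goals omega
  have c3 : ∀ j ≤ nv y, ¬ ((w j).1 = 2 ∧ (w j).2.1 = mm y) := fun j hj h => by
    have := stay a1 a2 (Or.inl rfl) hj h; omega
  have c4 : ∀ j, j < nv y → (w (j + 1)).1 = 2 ∧ (w (j + 1)).2.1 = (w 1).2.1 ∧
      al y (w 1).2.1 (j + 1) (w (j + 1)).2.2.2.1 = true := by
    intro j
    induction j with
    | zero => intro _; exact ⟨c1.1, rfl, c1.2.2⟩
    | succ j ih =>
      intro hj
      have d1 := ih (by omega)
      have d2 := a2 (j + 1) (by omega)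
      have d3 := a1 (j + 1 + 1) (by omega)
      have d4 := c3 (j + 1 + 1) hj
      unfold QV En at d3
      dsimp only [Ed] at d2
      rw [d3.2] at d2
      rcases d2 with k | k | k | ⟨k1, k2, k | k⟩ | k <;>
        first | omega | exact ⟨k2, k.1.trans d1.2.1, by rw [← d1.2.1, ← k.1]; exact k.2⟩
  have c5 : ∀ v < nv y, (w (v + 1)).2.2.2.1 < 2 ∧
      f (2, (w 1).2.1, 0, (w (v + 1)).2.2.2.1, v + 1) = f (2, mm y, 0, (σ v).toNat, v + 1) := by
    intro v hv
    have d1 := c4 v hv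
    have d2 := a1 (v + 1) (by omega)
    unfold QV En at d2
    refine ⟨by omega, ?_⟩
    rw [show σ v = σ (v + 1 - 1) from rfl, hβ (v + 1) (by omega) hv, ← a3 (v + 1) hv (by omega)]
    congr 1; exact (V_ext (by omega)).symm
  have d0 := c1.1
  have d1 := a1 1 (by omega)
  have d2 := c3 1 n1
  have d3 := c1.2.1
  have d4 : (w 1).2.1 < mm y + 2 ∨ (w 1).2.1 - (mm y + 2) ∈ y.1 := by
    rcases d1.1 with k | k | k
    · omega
    · omega
    · exact k.2.2.2.2.2
  clear d1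
  generalize (w 1).2.1 = T at *
  by_cases k : T < mm y
  · obtain ⟨l, hl, e⟩ := hs _ (List.getElem_mem k)
    have b1 := lit_lt y (List.getElem_mem k) hl
    obtain ⟨b2, b3⟩ := c5 _ b1
    have b4 := (c4 _ b1).2.2
    generalize (w (l.1 + 1)).2.2.2.1 = s at *
    have b5 : s ≠ (σ l.1).toNat := by
      rintro rfl
      simp only [al, List.getD_eq_getElem _ _ k, Nat.add_sub_cancel, Bool.and_eq_true,
        Bool.not_eq_true', ← Bool.not_eq_true, List.contains_iff_mem] at b4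
      apply b4.1
      rwa [show (l.1, (σ l.1).toNat == 1) = l by rw [e]; obtain ⟨_, _ | _⟩ := l <;> rfl]
    have c0 := force T k.le _ (by omega) b1 s b2 0 (by omega)
    have c1 := force T k.le _ (by omega) b1 s b2 1 (by omega)
    rw [show 1 - s = (σ l.1).toNat by have := Bool.toNat_lt (σ l.1); omega, b3, or_self] at c0 c1
    rw [c0] at c1; simp at c1
  · have b0 : T - (mm y + 2) ∈ y.1 := d4.resolve_left (by omega)
    obtain ⟨v, rfl⟩ : ∃ v, T = mm y + 2 + v := ⟨T - (mm y + 2), by omega⟩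
    rw [Nat.add_sub_cancel_left] at b0
    have b1 := D_lt y b0
    obtain ⟨b2, b3⟩ := c5 _ b1
    have b4 := (c4 _ b1).2.2
    generalize (w (v + 1)).2.2.2.1 = s at *
    have b5 : s = 0 := by
      simp only [al, Bool.and_eq_true, Bool.not_eq_true', Bool.and_eq_false_iff,
        beq_eq_false_iff_ne] at b4
      omega
    rw [b5, hσ v b0] at b3
    exact hτ v b1 b3.symm

def nat (τ : ℕ → Bool) (v : V) : V :=
  if v.1 = 2 then (0, 0, 0, if v.2.1 = mm y + 1 + v.2.2.2.2 then (!τ (v.2.2.2.2 - 1)).toNat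
    else v.2.2.2.1, v.2.2.2.2) else v

theorem lift (τ : ℕ → Bool) (L : List V) (hL : ACh (AP y) (fun v w => decide (PL v w)) L)
    (g h : ℕ → ℕ → ℕ)
    (H1 : ∀ j s, j ≤ nv y → (0, 0, 0, s, j) ∈ L → QV y (2, g j s, 0, h j s, j) ∧
      nat y τ (2, g j s, 0, h j s, j) = (0, 0, 0, s, j))
    (H2 : ∀ t j s s', j + 1 ≤ nv y → (1, t, j + 1, s', j) ∈ L → (0, 0, 0, s, j + 1) ∈ L →
      Ed y (1, t, j + 1, s', j) (2, g (j + 1) s, 0, h (j + 1) s, j + 1))
    (H3 : ∀ j s s', j + 1 ≤ nv y → (0, 0, 0, s', j) ∈ L → (0, 0, 0, s, j + 1) ∈ L →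
      Ed y (2, g j s', 0, h j s', j) (2, g (j + 1) s, 0, h (j + 1) s, j + 1))
    (H4 : ∀ s s', (0, 0, 0, s', nv y) ∈ L → (0, 0, 0, s, nv y + 1) ∈ L →
      Ed y (2, g (nv y) s', 0, h (nv y) s', nv y) (0, 0, 0, s, nv y + 1)) :
    ∃ c', ACh (AQ y) (fun v w => decide (QL y v w)) c' ∧ c'.map (nat y τ) = L := by
  have n1 := nv_pos y
  have hP : ∀ v ∈ L, PV y v := fun v hv => (mem_AP y v).1 (hL.1 v hv)
  refine ⟨L.map fun v => if v.1 = 0 ∧ v.2.2.2.2 ≤ nv y then
    (2, g v.2.2.2.2 v.2.2.2.1, 0, h v.2.2.2.2 v.2.2.2.1, v.2.2.2.2) else v, ⟨?_, ?_⟩, ?_⟩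
  · intro a ha
    obtain ⟨⟨k, t, i, s, j⟩, hv, rfl⟩ := List.mem_map.1 ha
    have := hP _ hv
    rw [mem_AQ]
    dsimp only [PV, En] at this ⊢
    split_ifs with c
    · obtain ⟨rfl, rfl, rfl⟩ : k = 0 ∧ t = 0 ∧ i = 0 := by omega
      exact (H1 j s c.2 hv).1
    · dsimp only [QV, En]; omega
  · rw [List.isChain_map]
    have := hL.2
    simp only [List.isChain_iff_getElem, decide_eq_true_eq] at this ⊢
    intro n hn
    have a := this n hn
    have b : L[n] ∈ L := List.getElem_mem _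
    have c : L[n + 1] ∈ L := List.getElem_mem _
    generalize L[n] = v at *
    generalize L[n + 1] = v' at *
    obtain ⟨k, t, i, s, j⟩ := v
    obtain ⟨k', t', i', s', j'⟩ := v'
    have b' := hP _ b
    have c' := hP _ c
    dsimp only [PV, En, PL] at a b' c' ⊢
    by_cases e : j + 1 = j'
    · subst e
      split_ifs with d d' d'
      · obtain ⟨rfl, rfl, rfl, rfl, rfl, rfl⟩ : k = 0 ∧ t = 0 ∧ i = 0 ∧ k' = 0 ∧ t' = 0 ∧ i' = 0 := by
          omega
        exact Or.inr ⟨rfl, H3 _ _ _ d'.2 b c⟩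
      · obtain ⟨rfl, rfl, rfl, rfl, rfl, rfl, rfl⟩ : k = 0 ∧ t = 0 ∧ i = 0 ∧ k' = 0 ∧ t' = 0 ∧
          i' = 0 ∧ j = nv y := by omega
        exact Or.inr ⟨rfl, H4 _ _ b c⟩
      · obtain ⟨rfl, rfl, rfl, rfl, rfl⟩ : k = 1 ∧ i = j + 1 ∧ k' = 0 ∧ t' = 0 ∧ i' = 0 := by omega
        exact Or.inr ⟨rfl, H2 _ _ _ _ d'.2 b c⟩
      · exact Or.inr ⟨rfl, Or.inl (by dsimp only; omega)⟩
    · left; split_ifs <;> dsimp only <;> omega
  · rw [List.map_map]
    refine (List.map_congr_left ?_).trans (List.map_id _)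
    rintro ⟨k, t, i, s, j⟩ hv
    have := hP _ hv
    dsimp only [PV, En, Function.comp, id] at this ⊢
    split_ifs with c
    · obtain ⟨rfl, rfl, rfl⟩ : k = 0 ∧ t = 0 ∧ i = 0 := by omega
      exact (H1 j s c.2 hv).2
    · rw [nat, if_neg (by dsimp only; omega)]

theorem PL_trans (u v w : V) (h1 : PL u v) (h2 : PL v w) : PL u w := by
  unfold PL at *; omega

theorem complete (H : ESAT y) : ∃ f : V → V, (∀ v ∈ AQ y, f v ∈ AP y) ∧ Wit y f := by
  classical
  obtain ⟨τ, hτ⟩ := H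
  have n1 := nv_pos y
  refine ⟨nat y τ, ?_, fun L hL => ?_⟩
  · rintro ⟨k, t, i, s, j⟩ hv
    rw [mem_AQ] at hv
    rw [mem_AP, nat]
    have := Bool.toNat_lt (!τ (j - 1))
    dsimp only [QV, En] at hv
    split_ifs with a b <;> dsimp only [PV, En] at * <;> omega
  have hP : ∀ v ∈ L, PV y v := fun v hv => (mem_AP y v).1 (hL.1 v hv)
  have cmp : ∀ v ∈ L, ∀ w ∈ L, v = w ∨ PL v w ∨ PL w v := by
    have : Trans (fun v w : V => decide (PL v w) = true) (fun v w : V => decide (PL v w) = true)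
      (fun v w : V => decide (PL v w) = true) :=
      ⟨fun h h' => by simpa only [decide_eq_true_eq] using PL_trans _ _ _ (by simpa using h) (by simpa using h')⟩
    have := hL.2.pairwise
    exact List.Pairwise.forall_of_forall_of_flip (fun _ _ => Or.inl rfl)
      (this.imp fun h => Or.inr (Or.inl (of_decide_eq_true h)))
      (this.imp fun h => Or.inr (Or.inr (of_decide_eq_true h)))
  have alU : ∀ t j s, mm y ≤ t → t ≤ mm y + 1 → 1 ≤ j → al y t j s = true := by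
    intro t j s h1 h2 h3
    have : t ≠ mm y + 1 + j := by omega
    rw [al, List.getD_eq_default _ _ h1]; simp [this]
  have natY : ∀ t j s, t ≤ mm y + 1 → 1 ≤ j → nat y τ (2, t, 0, s, j) = (0, 0, 0, s, j) := by
    intro t j s h1 h2
    rw [nat, if_pos rfl, if_neg (by dsimp only; omega)]
  by_cases top : (0, 0, 0, 1, nv y + 1) ∈ L
  · obtain ⟨g, g1, g2, g3⟩ : ∃ g : ℕ → ℕ → ℕ, (∀ j s, g j s ≤ mm y) ∧
        (∀ t j s, t ≤ mm y → (1, t, j + 1, s, j) ∈ L → g (j + 1) s = t) ∧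
        ∀ j s, (∀ t ≤ mm y, (1, t, j + 1, s, j) ∉ L) → g (j + 1) s = mm y := by
      refine ⟨fun j s => if h : ∃ t ≤ mm y, (1, t, j, s, j - 1) ∈ L then h.choose else mm y,
        fun j s => ?_, fun t j s h1 h2 => ?_, fun j s h => ?_⟩
      · dsimp only; split_ifs with h
        · exact h.choose_spec.1
        · rfl
      · have h : ∃ t ≤ mm y, (1, t, j + 1, s, j + 1 - 1) ∈ L := ⟨t, h1, h2⟩
        dsimp only; rw [dif_pos h]
        rcases cmp _ h.choose_spec.2 _ h2 with e | e | e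
        · exact congrArg (fun v : V => v.2.1) e
        · exact absurd e.1 (lt_irrefl j)
        · exact absurd e.1 (lt_irrefl j)
      · dsimp only; rw [dif_neg]
        rintro ⟨t, h1, h2⟩; exact h t h1 h2
    refine lift y τ L hL g (fun _ s => s) (fun j s h1 h2 => ?_) (fun t j s s' h1 h2 h3 => ?_)
      (fun j s s' h1 h2 h3 => ?_) fun s s' h2 h3 => ?_
    · have := hP _ h2
      have := g1 j s
      dsimp only [PV, En] at *
      exact ⟨by dsimp only [QV, En]; omega, natY _ _ _ (by omega) (by omega)⟩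
    · have a := hP _ h2
      have b : ∀ t', (1, t', j + 1, s, j) ∈ L → t' = t ∧ s = s' := fun t' h => by
        rcases cmp _ h _ h2 with e | e | e
        · simpa using e
        · exact absurd e.1 (lt_irrefl j)
        · exact absurd e.1 (lt_irrefl j)
      dsimp only [PV, En, Ed] at *
      by_cases c : t ≤ mm y ∧ s = s'
      · have := g2 t j s c.1 (c.2 ▸ h2); omega
      · by_cases d : t = mm y + 1
        · have e := g3 j s fun t' h' h => by have := (b t' h).1; omega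
          refine Or.inr (Or.inl ⟨rfl, le_rfl, rfl, d, by omega, alU _ _ _ (by omega) (by omega) (by omega)⟩)
        · have := g3 j s fun t' _ h => c ⟨by omega, (b t' h).2⟩
          omega
    · have := g1 j s'
      have := g3 j s fun t _ h => by
        rcases cmp _ h _ h2 with e | e | e
        · simp at e
        · exact absurd e.1 (lt_irrefl j)
        · exact absurd e.1 (lt_irrefl j)
      dsimp only [Ed]; omega
    · have := g1 (nv y) s'
      rcases cmp _ h3 _ top with e | e | e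
      · have : s = 1 := by simpa using e
        dsimp only [Ed]; omega
      · exact absurd e.1 (lt_irrefl _)
      · exact absurd e.1 (lt_irrefl _)
  have top' : ∀ s, (0, 0, 0, s, nv y + 1) ∈ L → s = 0 := fun s h => by
    have := hP _ h
    dsimp only [PV, En] at this
    by_contra k
    rw [show s = 1 by omega] at h; exact top h
  by_cases g0 : (1, mm y + 1, 1, 0, 0) ∈ L
  swap
  · refine lift y τ L hL (fun _ _ => mm y + 1) (fun _ s => s) (fun j s h1 h2 => ?_)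
      (fun t j s s' h1 h2 h3 => ?_) (fun j s s' h1 h2 h3 => ?_) fun s s' h2 h3 => ?_
    · have := hP _ h2
      dsimp only [PV, En] at *
      exact ⟨by dsimp only [QV, En]; omega, natY _ _ _ (by omega) (by omega)⟩
    · have a := hP _ h2
      dsimp only [PV, En, Ed] at *
      have : t ≠ mm y + 1 := by
        rintro rfl
        obtain ⟨rfl, rfl⟩ : j = 0 ∧ s' = 0 := by omega
        exact g0 h2
      omega
    · exact Or.inr (Or.inr (Or.inr (Or.inl ⟨rfl, rfl, Or.inl ⟨rfl,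
        alU _ _ _ (by dsimp only; omega) le_rfl (by dsimp only; omega)⟩⟩)))
    · have := top' _ h3
      dsimp only [Ed]; omega
  let σ : ℕ → Bool := fun v => decide ((0, 0, 0, 1, v + 1) ∈ L)
  have hσ : ∀ j s, (0, 0, 0, s, j) ∈ L → s = (σ (j - 1)).toNat ∧ 1 ≤ j := by
    intro j s h
    have a := hP _ h
    dsimp only [PV, En] at a
    refine ⟨?_, by omega⟩
    simp only [σ, show j - 1 + 1 = j by omega]
    by_cases b : (0, 0, 0, 1, j) ∈ L
    · rcases cmp _ h _ b with e | e | e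
      · simpa [b] using e
      · exact absurd e.1 (lt_irrefl _)
      · exact absurd e.1 (lt_irrefl _)
    · have : s ≠ 1 := by rintro rfl; exact b h
      simp [b]; omega
  obtain ⟨T, h, T1, T2, T3⟩ : ∃ (T : ℕ) (h : ℕ → ℕ → ℕ), T ≠ mm y ∧ T ≠ mm y + 1 ∧
      ∀ j s, j ≤ nv y → (0, 0, 0, s, j) ∈ L → (QV y (2, T, 0, h j s, j) ∧
        nat y τ (2, T, 0, h j s, j) = (0, 0, 0, s, j)) ∧ al y T j (h j s) = true := by
    by_cases k : ∀ v ∈ y.1, σ v = τ v
    · have := hτ σ k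
      simp only [Sat, not_forall, not_exists, not_and] at this
      obtain ⟨cl, hc, hn⟩ := this
      obtain ⟨T, hT, rfl⟩ := List.getElem_of_mem hc
      have hT' : T < mm y := hT
      refine ⟨T, fun _ s => s, by omega, by omega, fun j s h1 h2 => ?_⟩
      obtain ⟨a, b⟩ := hσ j s h2
      have := Bool.toNat_lt (σ (j - 1))
      refine ⟨⟨by dsimp only [QV, En]; omega, natY _ _ _ (by omega) b⟩, ?_⟩
      have c : T ≠ mm y + 1 + j := by omega
      have d : (j - 1, s == 1) ∉ y.2[T] := fun d => hn _ d (by rw [a]; cases σ (j - 1) <;> rfl)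
      rw [al, List.getD_eq_getElem _ _ hT]; simp [c]; exact d
    · push Not at k
      obtain ⟨v, hv, e⟩ := k
      refine ⟨mm y + 2 + v, fun j s => if j = v + 1 then 0 else s, by omega, by omega,
        fun j s h1 h2 => ?_⟩
      obtain ⟨a, b⟩ := hσ j s h2
      have := Bool.toNat_lt (σ (j - 1))
      have c : y.2.getD (mm y + 2 + v) [] = [] := List.getD_eq_default _ _ (by unfold mm; omega)
      dsimp only
      refine ⟨⟨Or.inr (Or.inr ⟨rfl, rfl, by dsimp only; split_ifs <;> omega, b, h1,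
        Or.inr (by simpa using hv)⟩), ?_⟩, ?_⟩
      · rw [nat, if_pos rfl]
        dsimp only
        by_cases d : j = v + 1
        · subst d
          rw [if_pos (by omega), a]
          simp only [Nat.add_sub_cancel]
          revert e; cases σ v <;> cases τ v <;> simp
        · rw [if_neg (by omega), if_neg d]
      · by_cases d : j = v + 1
        · rw [al, c]; simp [d]
        · have : mm y + 2 + v ≠ mm y + 1 + j := by omega
          rw [al, c]; simp [this]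
  refine lift y τ L hL (fun _ _ => T) h (fun j s h1 h2 => (T3 j s h1 h2).1)
    (fun t j s s' h1 h2 h3 => ?_) (fun j s s' h1 h2 h3 => ?_) fun s s' h2 h3 => ?_
  · refine Or.inr (Or.inl ⟨rfl, le_rfl, rfl, ?_, T2, (T3 _ _ h1 h3).2⟩)
    rcases cmp _ h2 _ g0 with e | e | e
    · exact congrArg (fun v : V => v.2.1) e
    · dsimp only [PL] at e; omega
    · dsimp only [PL] at e ⊢; omega
  · exact Or.inr (Or.inr (Or.inr (Or.inl ⟨rfl, rfl, Or.inl ⟨rfl, (T3 _ _ h1 h3).2⟩⟩)))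
  · have := top' _ h3
    dsimp only [Ed]; omega

theorem correct : ESAT y ↔ ChainMinor (red y) := by
  have a := po_mk (AP y) (fun v w => decide (PL v w)) (fun v => by simp [PL]) fun u v w h h' =>
    decide_eq_true (PL_trans _ _ _ (of_decide_eq_true h) (of_decide_eq_true h'))
  have b := po_mk (AQ y) (fun v w => decide (QL y v w)) (fun v => by simp [QL]) fun u v w h h' => by
    rw [decide_eq_true_eq] at *
    left; rcases h with h | h <;> rcases h' with h' | h' <;> omega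
  simp only [ChainMinor, red, a, b, true_and, transfer]
  exact ⟨complete y, fun ⟨_, _, h⟩ => sound y h⟩

theorem result : Sigma2Complete ChainMinor ∧ (InNP ChainMinor ↔ NPeqCoNP) :=
  (hard_ESAT.red (Val' := fun _ => True) red red_pt fun y _ => ⟨trivial, correct y⟩).sigma2 mem

end Pool.Agent.Results.MP_292d26_lc.Sigma2
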